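import Pool.Agent.H221R2.CwBasic

set_option autoImplicit false

open SimpleGraph Pool.Agent.Helper856.Lcw Pool.Agent.Helper856.Cw Pool.Agent.Helper856.PairStmt

namespace Pool.Agent.Results.MP_41f2d3_co.DiamondP1P5

/-- The clique-width of a nonempty finite graph is attained by some construction. -/
theorem attained {V : Type} [Finite V] [Nonempty V] (G : SimpleGraph V) :
    CwLE G (cliqueWidth G) := by
  obtain ⟨k, hk⟩ := exists_lcwLE G
  exact Nat.sInf_mem (s := {k | CwLE G k}) ⟨k, cwLE_of_lcwLE hk⟩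

/-- Q2: the finite graphs without induced diamond and without induced `P_1 + P_5` have
bounded clique-width, and even bounded linear clique-width. -/
theorem result : ∃ c : ℕ, ∀ (V : Type) [Finite V] (G : SimpleGraph V),
    ¬ Diamond.IsIndContained G → ¬ P1_P5.IsIndContained G →
      cliqueWidth G ≤ c ∧ linearCliqueWidth G ≤ c := by
  have h : Bounded Diamond P1_P5 :=
    Pool.Agent.Helper856.Cw.AsmT.bounded_iff_BG.mpr (Pool.Agent.Helper856.Cw.AsmF.good_BG
      (Or.inr (Or.inr (Or.inr (Or.inr (Or.inl ⟨IsIndContained.refl _,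
        Or.inr (Or.inl (IsIndContained.refl _))⟩))))))
  obtain ⟨c, hc⟩ := h
  refine ⟨c, fun V _ G h1 h2 => ?_⟩
  have h3 := hc V G h1 h2
  exact ⟨(Pool.Agent.H221R2.CwBasic.cliqueWidth_le G).trans h3, h3⟩

end Pool.Agent.Results.MP_41f2d3_co.DiamondP1P5
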